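import Pool.Agent.H458R5.Box

/-!
# Non-meagre sets with relatively meagre traces on all translates of a thin Cantor set

For a Cantor set `K` of reals, `SmallTraces K` says that there is a non-meagre set `X` of reals such
that `K ∩ (X + t)` is meagre in `K` for all reals `t`. It is proved here (in ZFC) for each Cantor
set `K` each nonempty portion of which contains a nonempty thin portion; in particular for each
Cantor set which generates a proper subgroup of the reals, and for each Cantor set each nonempty
portion of which contains a nonempty portion of lower box dimension less than `1 / 2`.

The set `X` is constructed by recursion of length `𝔠`. Each countable intersection `C` of dense open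
sets contains the image of a map `f` from the Cantor space such that no injective `n`-tuple of
points is mapped to an `n`-tuple which lies in a single translate of the difference set of a portion
with the index `n`. So each translate of this difference set contains only finitely many points
`f α`, and fewer than `𝔠` such translates do not cover `C`. Hence the next point of `X` can be
chosen in `C` so that its differences with the former points do not belong to the difference sets
of the portions, and then `X + t` has at most one point in each of the portions.
-/

namespace Pool.Agent.Results.MP_72b52d_lc.ThinCantorSets

open Pool.Agent.H458R5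

/-- The negated form of the question for thin Cantor sets. -/
theorem result :
    (∀ K : Set ℝ, IsCantorSet K → LocallyThin K → SmallTraces K) ∧
    (∀ K : Set ℝ, IsCantorSet K → AddSubgroup.closure K ≠ ⊤ → SmallTraces K) ∧
    ∀ K : Set ℝ, IsCantorSet K →
      (∀ O : Set ℝ, IsOpen O → (K ∩ O).Nonempty →
        ∃ O' ⊆ O, IsOpen O' ∧ (K ∩ O').Nonempty ∧ LowerBoxDimLtHalf (K ∩ O')) →
      SmallTraces K := by
  refine ⟨fun K hK h => smallTraces_of_locallyThin hK h, fun K hK h => ?_, fun K hK h => ?_⟩
  · exact smallTraces_of_locallyThin hK (thin_of_closure_ne_top hK.isCompact h).locallyThin
  · refine smallTraces_of_locallyThin hK fun O hO hne => ?_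
    obtain ⟨O', h1, h2, h3, h4⟩ := h O hO hne
    exact ⟨O', h1, h2, h3, thin_of_box h4⟩

end Pool.Agent.Results.MP_72b52d_lc.ThinCantorSets
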